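import Pool.Agent.Run7.h609.HT.Iface

/-!
# Piece FGG of project HT (helper609)
-/

set_option autoImplicit false

open Function

namespace Pool.Agent.Run7.h499.HT

open Pool.Agent.Run7.h609.HT

theorem swap3 {X : Type} [DecidableEq X] {a b c : X} (hab : a ≠ b) (hbc : b ≠ c) (hac : a ≠ c) :
    Equiv.swap a c = Equiv.swap a b * Equiv.swap b c * Equiv.swap a b := by
  ext x
  simp only [Equiv.Perm.mul_apply]
  by_cases h1 : x = a
  · subst h1
    simp [Equiv.swap_apply_of_ne_of_ne hac.symm hbc.symm]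
  · by_cases h2 : x = b
    · subst h2
      simp [Equiv.swap_apply_of_ne_of_ne hab hac, Equiv.swap_apply_of_ne_of_ne hab.symm hbc]
    · by_cases h3 : x = c
      · subst h3
        simp [Equiv.swap_apply_of_ne_of_ne hac.symm hbc.symm]
      · simp [Equiv.swap_apply_of_ne_of_ne h1 h2, Equiv.swap_apply_of_ne_of_ne h1 h3,
          Equiv.swap_apply_of_ne_of_ne h2 h3]

open Classical in
/-- Piece FGG. -/
theorem t_FGG : S_FGG := by
  intro Γ X _ _ x₀ hFG htr
  rw [Group.fg_iff_subgroup_fg, Subgroup.fg_iff]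
  obtain ⟨S, hS⟩ := hFG.out
  let ρ : Γ →* Equiv.Perm X := MulAction.toPermHom Γ X
  have hρ : ∀ (γ : Γ) (x : X), ρ γ x = γ • x := fun _ _ => rfl
  let T : Set (Equiv.Perm X × Γ) :=
    (fun s : Γ => ((ρ s, s) : Equiv.Perm X × Γ)) '' (S : Set Γ) ∪
      (fun s : Γ => ((Equiv.swap x₀ (s • x₀), 1) : Equiv.Perm X × Γ)) '' (S : Set Γ)
  refine ⟨T, le_antisymm ?_ ?_, ?_⟩
  · rw [Subgroup.closure_le]
    rintro p (⟨s, _, rfl⟩ | ⟨s, _, rfl⟩)
    · show {x | ρ s x ≠ s • x}.Finite
      have : {x | ρ s x ≠ s • x} = ∅ := by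
        ext x; simp [hρ]
      rw [this]; exact Set.finite_empty
    · show {x | Equiv.swap x₀ (s • x₀) x ≠ (1 : Γ) • x}.Finite
      refine (Set.toFinite ({x₀, s • x₀} : Set X)).subset ?_
      intro x hx
      by_contra hc
      simp only [Set.mem_insert_iff, Set.mem_singleton_iff, not_or] at hc
      apply hx
      rw [one_smul]
      exact Equiv.swap_apply_of_ne_of_ne hc.1 hc.2
  · -- the other inclusion
    set K := Subgroup.closure T with hK
    have h1 : ∀ γ : Γ, ((ρ γ, γ) : Equiv.Perm X × Γ) ∈ K := by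
      intro γ
      have hγ : γ ∈ Subgroup.closure (S : Set Γ) := by rw [hS]; trivial
      induction hγ using Subgroup.closure_induction with
      | mem s hs => exact Subgroup.subset_closure (Or.inl ⟨s, hs, rfl⟩)
      | one =>
        have : ((ρ 1, 1) : Equiv.Perm X × Γ) = 1 := by rw [map_one]; rfl
        rw [this]; exact one_mem _
      | mul a b _ _ ha hb =>
        have : ((ρ (a * b), a * b) : Equiv.Perm X × Γ) = (ρ a, a) * (ρ b, b) := by
          rw [map_mul]; rfl
        rw [this]; exact mul_mem ha hb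
      | inv a _ ha =>
        have : ((ρ a⁻¹, a⁻¹) : Equiv.Perm X × Γ) = (ρ a, a)⁻¹ := by
          rw [map_inv]; rfl
        rw [this]; exact inv_mem ha
    have hinv : ∀ (γ : Γ) (a b : X), ((Equiv.swap a b, 1) : Equiv.Perm X × Γ) ∈ K →
        ((Equiv.swap (γ • a) (γ • b), 1) : Equiv.Perm X × Γ) ∈ K := by
      intro γ a b h
      have e : ((Equiv.swap (γ • a) (γ • b), 1) : Equiv.Perm X × Γ) =
          (ρ γ, γ) * (Equiv.swap a b, 1) * (ρ γ, γ)⁻¹ := by
        refine Prod.ext ?_ ?_
        · show Equiv.swap (ρ γ a) (ρ γ b) = ρ γ * Equiv.swap a b * (ρ γ)⁻¹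
          exact Equiv.swap_apply_apply _ _ _
        · show (1 : Γ) = γ * 1 * γ⁻¹
          simp
      rw [e]
      exact mul_mem (mul_mem (h1 γ) h) (inv_mem (h1 γ))
    have hone : ∀ a : X, ((Equiv.swap a a, 1) : Equiv.Perm X × Γ) ∈ K := by
      intro a
      have : ((Equiv.swap a a, 1) : Equiv.Perm X × Γ) = 1 := by
        rw [Equiv.swap_self]; rfl
      rw [this]; exact one_mem _
    have hsymm : ∀ a b : X, ((Equiv.swap a b, 1) : Equiv.Perm X × Γ) ∈ K →
        ((Equiv.swap b a, 1) : Equiv.Perm X × Γ) ∈ K := by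
      intro a b h; rwa [Equiv.swap_comm]
    have htrans : ∀ a b c : X, ((Equiv.swap a b, 1) : Equiv.Perm X × Γ) ∈ K →
        ((Equiv.swap b c, 1) : Equiv.Perm X × Γ) ∈ K →
        ((Equiv.swap a c, 1) : Equiv.Perm X × Γ) ∈ K := by
      intro a b c hab hbc
      by_cases h : a = b
      · subst h; exact hbc
      by_cases h' : b = c
      · subst h'; exact hab
      by_cases h'' : a = c
      · subst h''; exact hone a
      have e : ((Equiv.swap a c, 1) : Equiv.Perm X × Γ) =
          (Equiv.swap a b, 1) * (Equiv.swap b c, 1) * (Equiv.swap a b, 1) := by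
        refine Prod.ext ?_ ?_
        · exact swap3 h h' h''
        · show (1 : Γ) = 1 * 1 * 1
          simp
      rw [e]
      exact mul_mem (mul_mem hab hbc) hab
    have h2 : ∀ γ : Γ, ((Equiv.swap x₀ (γ • x₀), 1) : Equiv.Perm X × Γ) ∈ K := by
      intro γ
      have hγ : γ ∈ Subgroup.closure (S : Set Γ) := by rw [hS]; trivial
      induction hγ using Subgroup.closure_induction with
      | mem s hs => exact Subgroup.subset_closure (Or.inr ⟨s, hs, rfl⟩)
      | one => rw [one_smul]; exact hone _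
      | mul a b _ _ ha hb =>
        have := hinv a _ _ hb
        rw [smul_smul] at this
        exact htrans _ _ _ ha this
      | inv a _ ha =>
        have := hinv a⁻¹ _ _ ha
        rw [smul_smul, inv_mul_cancel, one_smul] at this
        exact hsymm _ _ this
    have h3 : ∀ a b : X, ((Equiv.swap a b, 1) : Equiv.Perm X × Γ) ∈ K := by
      intro a b
      obtain ⟨γ, rfl⟩ := htr a
      obtain ⟨γ', rfl⟩ := htr b
      exact htrans _ _ _ (hsymm _ _ (h2 γ)) (h2 γ')
    have h4 : ∀ σ : Equiv.Perm X, {x | σ x ≠ x}.Finite →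
        ((σ, 1) : Equiv.Perm X × Γ) ∈ K := by
      intro σ hσ
      have hσ' : σ ∈ Subgroup.closure {τ : Equiv.Perm X | τ.IsSwap} := by
        rw [mem_closure_isSwap']
        refine hσ.subset ?_
        intro x hx
        simpa using hx
      induction hσ' using Subgroup.closure_induction with
      | mem τ hτ =>
        obtain ⟨a, b, _, rfl⟩ := hτ
        exact h3 a b
      | one => exact one_mem _
      | mul a b ha0 hb0 ha hb =>
        have e : ((a * b, 1) : Equiv.Perm X × Γ) = (a, 1) * (b, 1) :=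
          Prod.ext rfl (by show (1 : Γ) = 1 * 1; simp)
        rw [e]
        refine mul_mem (ha ?_) (hb ?_)
        · rw [mem_closure_isSwap'] at ha0
          refine ha0.subset ?_
          intro x hx
          simpa using hx
        · rw [mem_closure_isSwap'] at hb0
          refine hb0.subset ?_
          intro x hx
          simpa using hx
      | inv a ha0 ha =>
        have e : ((a⁻¹, 1) : Equiv.Perm X × Γ) = (a, 1)⁻¹ :=
          Prod.ext rfl (by show (1 : Γ) = 1⁻¹; simp)
        rw [e]
        refine inv_mem (ha ?_)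
        rw [mem_closure_isSwap'] at ha0
        refine ha0.subset ?_
        intro x hx
        simpa using hx
    rintro ⟨σ, γ⟩ hp
    have hp' : {x | σ x ≠ γ • x}.Finite := hp
    have e : ((σ, γ) : Equiv.Perm X × Γ) = (σ * (ρ γ)⁻¹, 1) * (ρ γ, γ) := by
      refine Prod.ext ?_ ?_
      · show σ = σ * (ρ γ)⁻¹ * ρ γ
        simp
      · show γ = 1 * γ
        simp
    rw [e]
    refine mul_mem (h4 _ ?_) (h1 γ)
    refine (hp'.image (ρ γ)).subset ?_
    intro x hx
    refine ⟨(ρ γ)⁻¹ x, ?_, by simp⟩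
    intro hc
    apply hx
    show σ ((ρ γ)⁻¹ x) = x
    rw [hc, ← hρ]
    simp
  · exact (S.finite_toSet.image _).union (S.finite_toSet.image _)

end Pool.Agent.Run7.h499.HT
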